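import Pool.Agent.N181.Mod.Self
import Pool.Agent.Y163.GeoC

/-!
# Lower bounds for the defects of products
-/

set_option autoImplicit false

open CategoryTheory AlgebraicGeometry

universe u v

namespace Pool.Agent.L7h85.Sup

open Pool.Agent.H914 Pool.Agent.H914.VarClass Pool.Agent.H914.VarClass.Obj
  Pool.Agent.H914.WeilCohomology Pool.Agent.H281R3.HT Pool.Agent.W534 Pool.Agent.TH132.P
  Pool.Agent.N181.Mod

variable {k : Type u} [Field k] {𝒱 : VarClass k} {ops : CycleOps 𝒱}
  {W : WeilCohomology.{u, v} ops} {X Y Z Z' : 𝒱.Obj} {p : ℕ}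

/-- The exchange of the factors and the external products of operators. -/
lemma map_swap_extOp {φ : Module.End W.K (W.H Y)} (hφ : Y163.Deg0 φ) (z : W.H (X.prod Y)) :
    W.map (swap Y X) (extOp W (1 : Module.End W.K (W.H X)) φ z) =
      extOp W φ (1 : Module.End W.K (W.H X)) (W.map (swap Y X) z) := by
  refine W.kunneth_induction (p := fun z => W.map (swap Y X) (extOp W
    (1 : Module.End W.K (W.H X)) φ z) = extOp W φ (1 : Module.End W.K (W.H X))
      (W.map (swap Y X) z)) ?_ ?_ z
  · intro a b ha hb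
    rw [map_add, map_add, map_add, map_add, ha, hb]
  · intro i j a ha b hb
    have e1 : ∀ x : W.H X, W.map (swap Y X) (W.map (fst X Y) x) = W.map (snd Y X) x := by
      intro x
      rw [← W.map_comp, swap_fst]
    have e2 : ∀ x : W.H Y, W.map (swap Y X) (W.map (snd X Y) x) = W.map (fst Y X) x := by
      intro x
      rw [← W.map_comp, swap_snd]
    rw [extOp_tmul, map_mul, map_mul, e1, e2, e1, e2, Module.End.one_apply,
      W.comm (W.map_mem (snd Y X) ha) (W.map_mem (fst Y X) (hφ j b hb)),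
      W.comm (W.map_mem (snd Y X) ha) (W.map_mem (fst Y X) hb), map_smul, extOp_tmul,
      Module.End.one_apply]

/-- The exchange of the factors, as a linear equivalence. -/
noncomputable def swapE (W : WeilCohomology.{u, v} ops) (X Y : 𝒱.Obj) :
    W.H (X.prod Y) ≃ₗ[W.K] W.H (Y.prod X) :=
  LinearEquiv.ofLinearMap (W.map (swap Y X)).toLinearMap (W.map (swap X Y)).toLinearMap
    (LinearMap.ext fun z => map_swap_swap' z) (LinearMap.ext fun z => map_swap_swap' z)

lemma swapE_apply (z : W.H (X.prod Y)) : swapE W X Y z = W.map (swap Y X) z := rfl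

lemma finrank_swap (𝒮 : Sys W) {φ : Module.End W.K (W.H Y)} (hφ : Y163.Deg0 φ) (c : ℕ) :
    Module.finrank W.K (𝒮.S (X.prod Y) c ⊓ LinearMap.range
      (extOp W (1 : Module.End W.K (W.H X)) φ) : Submodule W.K (W.H (X.prod Y))) =
    Module.finrank W.K (𝒮.S (Y.prod X) c ⊓ LinearMap.range
      (extOp W φ (1 : Module.End W.K (W.H X))) : Submodule W.K (W.H (Y.prod X))) := by
  have h1 : (𝒮.S (X.prod Y) c ⊓ LinearMap.range (extOp W (1 : Module.End W.K (W.H X)) φ)).map
      (swapE W X Y).toLinearMap = 𝒮.S (Y.prod X) c ⊓ LinearMap.range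
      (extOp W φ (1 : Module.End W.K (W.H X))) := by
    ext z
    constructor
    · rintro ⟨w, ⟨hw, y, rfl⟩, rfl⟩
      refine ⟨𝒮.map (swap Y X) hw, W.map (swap Y X) y, ?_⟩
      exact (map_swap_extOp hφ y).symm
    · rintro ⟨hz, y, rfl⟩
      refine ⟨W.map (swap X Y) (extOp W φ (1 : Module.End W.K (W.H X)) y),
        ⟨𝒮.map (swap X Y) hz, W.map (swap X Y) y, ?_⟩, map_swap_swap' _⟩
      have h2 := map_swap_extOp (X := X) hφ (W.map (swap X Y) y)
      rw [map_swap_swap'] at h2
      rw [← h2, map_swap_swap']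
  rw [← h1]
  exact (LinearEquiv.finrank_map_eq (swapE W X Y) _).symm

/-- The product of two families. -/
lemma DFam.mulFam {κ κ' : Type} [Fintype κ] [DecidableEq κ] [Fintype κ'] [DecidableEq κ']
    {e b : κ → W.H X} {d : κ → ℕ} {e' b' : κ' → W.H Y} {d' : κ' → ℕ} (h : DFam W X e b d)
    (h' : DFam W Y e' b' d') : DFam W (X.prod Y) (κ := κ × κ') (fun x => ext W (e x.1) (e' x.2))
      (fun x => ext W (b x.1) (b' x.2)) (fun x => d x.1 + d' x.2) where
  hd x := by
    have h1 := h.hd x.1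
    have h2 := h'.hd x.2
    rw [dim_prod]
    omega
  he x := (sysA W).mul ((sysA W).map (fst X Y) (h.he x.1)) ((sysA W).map (snd X Y) (h'.he x.2))
  hb x := by
    have h3 := (sysA W).mul ((sysA W).map (fst X Y) (h.hb x.1))
      ((sysA W).map (snd X Y) (h'.hb x.2))
    have h1 := h.hd x.1
    have h2 := h'.hd x.2
    rwa [show X.dim - d x.1 + (Y.dim - d' x.2) = (X.prod Y).dim - (d x.1 + d' x.2) by
      rw [dim_prod]; omega] at h3
  dual x y := by
    rw [ext_mul_ext (H914.span_gr (h.hb y.1)), h.dual, h'.dual]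
    by_cases h1 : x.1 = y.1
    · by_cases h2 : x.2 = y.2
      · rw [if_pos h1, if_pos h2, if_pos (Prod.ext h1 h2), mul_one]
      · rw [if_neg h2, if_neg (fun hh : x = y => h2 (congrArg Prod.snd hh)), mul_zero]
    · rw [if_neg h1, if_neg (fun hh : x = y => h1 (congrArg Prod.fst hh)), zero_mul]

lemma dproj_mulFam {κ κ' : Type} [Fintype κ] [DecidableEq κ] [Fintype κ'] [DecidableEq κ']
    {e b : κ → W.H X} {d : κ → ℕ} {e' b' : κ' → W.H Y} {d' : κ' → ℕ} (h : DFam W X e b d)
    (h' : DFam W Y e' b' d') :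
    dproj W (fun x : κ × κ' => ext W (e x.1) (e' x.2)) (fun x => ext W (b x.1) (b' x.2)) =
      extOp W (dproj W e b) (dproj W e' b') := by
  apply ext_kunneth_lin
  intro x y
  rw [extOp_tmul, dproj_apply, dproj_apply, dproj_apply, map_sum, map_sum,
    Finset.sum_mul_sum, ← Finset.univ_product_univ, Finset.sum_product]
  refine Finset.sum_congr rfl fun i _ => Finset.sum_congr rfl fun j _ => ?_
  have h1 := ext_mul_ext (W := W) (H914.span_gr (h.hb i)) (x := x) y (b' j)
  change W.tr _ (ext W x y * ext W (b i) (b' j)) • _ = _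
  rw [h1, map_smul, map_smul, smul_mul_assoc, mul_smul_comm, smul_smul]
  rfl

/-- The convolution is commutative. -/
lemma conv_comm (m n c : ℕ) (a b : ℕ → ℕ) : conv m n a b c = conv n m b a c := by
  rw [conv, conv, Finset.sum_product, Finset.sum_product_right]
  refine Finset.sum_congr rfl fun i _ => Finset.sum_congr rfl fun j _ => ?_
  dsimp only
  rw [add_comm i j, mul_comm (a i) (b j)]

/-- **The defects of products: the lower bound.** -/
theorem super_le (Φ : FrobSystem W p) (X Y : 𝒱.Obj) {c : ℕ} (hc : c ≤ (X.prod Y).dim) :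
    conv X.dim Y.dim (numRank ops X) (defect Φ Y) c +
      conv X.dim Y.dim (defect Φ X) (numRank ops Y) c ≤ defect Φ (X.prod Y) c := by
  obtain ⟨κ, _, _, e, b, d, h, hcard⟩ := exists_num_fam W X
  obtain ⟨κ', _, _, e', b', d', h', hcard'⟩ := exists_num_fam W Y
  have hconv : conv X.dim Y.dim (numRank ops X) (defect Φ Y) c =
      shiftSum d (ez Y.dim (defect Φ Y)) c := by
    have h1 := conv_modEq (m := 0) (n := Y.dim) (a := numRank ops X) (b := defect Φ Y) h.hd
      (fun i hi => by rw [hcard i hi]) c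
    exact Nat.modEq_zero_iff.1 h1
  have hconv' : conv X.dim Y.dim (defect Φ X) (numRank ops Y) c =
      shiftSum d' (ez X.dim (defect Φ X)) c := by
    have h1 := conv_modEq (m := 0) (n := X.dim) (a := numRank ops Y) (b := defect Φ X) h'.hd
      (fun i hi => by rw [hcard' i hi]) c
    rw [conv_comm]
    exact Nat.modEq_zero_iff.1 h1
  rw [hconv, hconv']
  set P := dproj W e b with hP
  set P' := dproj W e' b' with hP'
  have hPP : P * P = P := h.idem
  have hPP' : P' * P' = P' := h'.idem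
  have hQ : (1 - P) * (1 - P) = 1 - P := by
    rw [mul_sub, mul_one, sub_mul, one_mul, hPP, sub_self, sub_zero]
  have hQ' : (1 - P') * (1 - P') = 1 - P' := by
    rw [mul_sub, mul_one, sub_mul, one_mul, hPP', sub_self, sub_zero]
  have hPQ : P * (1 - P) = 0 := by rw [mul_sub, mul_one, hPP, sub_self]
  have hQP : (1 - P) * P = 0 := by rw [sub_mul, one_mul, hPP, sub_self]
  have hk1 : P ∈ KOp W X X 0 := h.kop
  have hk2 : P' ∈ KOp W Y Y 0 := h'.kop
  have hk3 : 1 - P ∈ KOp W X X 0 := Submodule.sub_mem _ (KOp.id X) hk1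
  have hk4 : 1 - P' ∈ KOp W Y Y 0 := Submodule.sub_mem _ (KOp.id Y) hk2
  have kext : ∀ {φ : Module.End W.K (W.H X)} {ψ : Module.End W.K (W.H Y)}, φ ∈ KOp W X X 0 →
      ψ ∈ KOp W Y Y 0 → extOp W φ ψ ∈ KOp W (X.prod Y) (X.prod Y) 0 := fun hφ hψ =>
    KOp.cast (KOp.ext hφ hψ) (add_zero 0)
  have hd0 : Y163.Deg0 P' := Y163.deg0_of_mem hk2
  have hsum : extOp W P (1 : Module.End W.K (W.H Y)) + extOp W (1 - P) P' +
      extOp W (1 - P) (1 - P') = 1 := by
    have e1 : extOp W (1 - P) P' + extOp W (1 - P) (1 - P') =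
        extOp W (1 - P) (1 : Module.End W.K (W.H Y)) := by
      rw [← extOp_add_right]
      congr 1
      abel
    rw [add_assoc, e1, ← extOp_add_left, ← extOp_one]
    congr 1
    abel
  have i1 : extOp W P (1 : Module.End W.K (W.H Y)) * extOp W P 1 = extOp W P 1 := by
    rw [extOp_mul, hPP, mul_one]
  have i2 : extOp W (1 - P) P' * extOp W (1 - P) P' = extOp W (1 - P) P' := by
    rw [extOp_mul, hQ, hPP']
  have i3 : extOp W (1 - P) (1 - P') * extOp W (1 - P) (1 - P') =
      extOp W (1 - P) (1 - P') := by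
    rw [extOp_mul, hQ, hQ']
  have i4 : extOp W P P' * extOp W P P' = extOp W P P' := by
    rw [extOp_mul, hPP, hPP']
  have i5 : extOp W P P' * extOp W (1 - P) P' = 0 := by
    rw [extOp_mul, hPQ, extOp_zero_left]
  have i6 : extOp W (1 - P) P' * extOp W P P' = 0 := by
    rw [extOp_mul, hQP, extOp_zero_left]
  have hs2 : extOp W P P' + extOp W (1 - P) P' = extOp W (1 : Module.End W.K (W.H X)) P' := by
    rw [← extOp_add_left]
    congr 1
    abel
  have key : ∀ 𝒮 : Sys W, Module.finrank W.K (𝒮.S (X.prod Y) c) =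
      shiftSum d (fun j => Module.finrank W.K (𝒮.S Y j)) c +
      Module.finrank W.K (𝒮.S (X.prod Y) c ⊓ LinearMap.range (extOp W (1 - P) P') :
        Submodule W.K (W.H (X.prod Y))) +
      Module.finrank W.K (𝒮.S (X.prod Y) c ⊓ LinearMap.range (extOp W (1 - P) (1 - P')) :
        Submodule W.K (W.H (X.prod Y))) := by
    intro 𝒮
    rw [finrank_split3 i1 i2 i3 hsum (Q := 𝒮.S (X.prod Y) c)
      (fun v hv => 𝒮.kop (kop_ext hk1) hv) (fun v hv => 𝒮.kop (kext hk3 hk2) hv)
      (fun v hv => 𝒮.kop (kext hk3 hk4) hv), h.finrank_prod, sum_comp_eq]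
  have key2 : ∀ 𝒮 : Sys W, shiftSum d' (fun j => Module.finrank W.K (𝒮.S X j)) c =
      Module.finrank W.K (𝒮.S (X.prod Y) c ⊓ LinearMap.range (extOp W P P') :
        Submodule W.K (W.H (X.prod Y))) +
      Module.finrank W.K (𝒮.S (X.prod Y) c ⊓ LinearMap.range (extOp W (1 - P) P') :
        Submodule W.K (W.H (X.prod Y))) := by
    intro 𝒮
    rw [← finrank_add_inf i4 i2 i5 i6 (Q := 𝒮.S (X.prod Y) c)
      (fun v hv => 𝒮.kop (kext hk1 hk2) hv) (fun v hv => 𝒮.kop (kext hk3 hk2) hv), hs2,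
      finrank_swap 𝒮 hd0, h'.finrank_prod, sum_comp_eq]
  have hM := DFam.mulFam h h'
  have hMP := dproj_mulFam h h'
  have kT := key (sysT Φ)
  have kA := key (sysA W)
  have kN := key (sysN W)
  have lT := key2 (sysT Φ)
  have lA := key2 (sysA W)
  have lN := key2 (sysN W)
  have mT := hM.finrank_gen Φ c
  have mA := hM.finrank_alg c
  have mN := hM.nul_inf c
  rw [hMP] at mT mA mN
  change Module.finrank W.K (genT Φ (X.prod Y) c) = shiftSum d
    (fun j => Module.finrank W.K (genT Φ Y j)) c + Module.finrank W.K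
    (genT Φ (X.prod Y) c ⊓ _ : Submodule W.K (W.H (X.prod Y))) + Module.finrank W.K
    (genT Φ (X.prod Y) c ⊓ _ : Submodule W.K (W.H (X.prod Y))) at kT
  change Module.finrank W.K (spanCycles W (X.prod Y) (c : ℕ)) = shiftSum d
    (fun j => Module.finrank W.K (spanCycles W Y (j : ℕ))) c + Module.finrank W.K
    (spanCycles W (X.prod Y) (c : ℕ) ⊓ _ : Submodule W.K (W.H (X.prod Y))) + Module.finrank W.K
    (spanCycles W (X.prod Y) (c : ℕ) ⊓ _ : Submodule W.K (W.H (X.prod Y))) at kA
  change Module.finrank W.K (nul W (X.prod Y) c) = shiftSum d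
    (fun j => Module.finrank W.K (nul W Y j)) c + Module.finrank W.K
    (nul W (X.prod Y) c ⊓ _ : Submodule W.K (W.H (X.prod Y))) + Module.finrank W.K
    (nul W (X.prod Y) c ⊓ _ : Submodule W.K (W.H (X.prod Y))) at kN
  change shiftSum d' (fun j => Module.finrank W.K (genT Φ X j)) c = Module.finrank W.K
    (genT Φ (X.prod Y) c ⊓ _ : Submodule W.K (W.H (X.prod Y))) + Module.finrank W.K
    (genT Φ (X.prod Y) c ⊓ _ : Submodule W.K (W.H (X.prod Y))) at lT
  change shiftSum d' (fun j => Module.finrank W.K (spanCycles W X (j : ℕ))) c =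
    Module.finrank W.K
    (spanCycles W (X.prod Y) (c : ℕ) ⊓ _ : Submodule W.K (W.H (X.prod Y))) + Module.finrank W.K
    (spanCycles W (X.prod Y) (c : ℕ) ⊓ _ : Submodule W.K (W.H (X.prod Y))) at lA
  change shiftSum d' (fun j => Module.finrank W.K (nul W X j)) c = Module.finrank W.K
    (nul W (X.prod Y) c ⊓ _ : Submodule W.K (W.H (X.prod Y))) + Module.finrank W.K
    (nul W (X.prod Y) c ⊓ _ : Submodule W.K (W.H (X.prod Y))) at lN
  rw [mN, finrank_bot, zero_add] at lN
  rw [mT] at lT
  rw [mA] at lA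
  have e1 : ∀ Y : 𝒱.Obj, (fun j => Module.finrank W.K (genT Φ Y j)) =
      fun j => ez Y.dim (numRank ops Y) j + ez Y.dim (defect Φ Y) j :=
    fun Y => funext fun j => rank_T Φ j
  have e2 : ∀ Y : 𝒱.Obj, (fun j : ℕ => Module.finrank W.K (spanCycles W Y (j : ℕ))) =
      fun j => ez Y.dim (numRank ops Y) j + Module.finrank W.K (nul W Y j) :=
    fun Y => funext fun j => rank_A j
  rw [e1, shiftSum_add] at kT lT
  rw [e2, shiftSum_add] at kA lA
  have hd1 := numRank_add_defect (Φ := Φ) (X.prod Y) hc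
  have hd2 := finrank_nul (W := W) (Z := X.prod Y) c
  rw [← numRank_eq (W := W) hc] at hd2
  have hle : Module.finrank W.K (spanCycles W (X.prod Y) (c : ℕ) ⊓ LinearMap.range
      (extOp W (1 - P) (1 - P')) : Submodule W.K (W.H (X.prod Y))) ≤
      Module.finrank W.K (genT Φ (X.prod Y) c ⊓ LinearMap.range
      (extOp W (1 - P) (1 - P')) : Submodule W.K (W.H (X.prod Y))) :=
    Submodule.finrank_mono (inf_le_inf_right _ (span_le_genT Φ (X.prod Y) c))
  omega

/-- **The ranks of products.** -/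
theorem rank_ge (W : WeilCohomology.{u, v} ops) (X Y : 𝒱.Obj) {c : ℕ}
    (hc : c ≤ (X.prod Y).dim) :
    conv X.dim Y.dim (numRank ops X) (numRank ops Y) c ≤ numRank ops (X.prod Y) c := by
  obtain ⟨κ, _, _, e, b, d, h, hcard⟩ := exists_num_fam W X
  have hconv : conv X.dim Y.dim (numRank ops X) (numRank ops Y) c =
      shiftSum d (ez Y.dim (numRank ops Y)) c := by
    have h1 := conv_modEq (m := 0) (n := Y.dim) (a := numRank ops X) (b := numRank ops Y) h.hd
      (fun i hi => by rw [hcard i hi]) c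
    exact Nat.modEq_zero_iff.1 h1
  rw [hconv]
  have hP' : extOp W (dproj W e b) (1 : Module.End W.K (W.H Y)) *
      extOp W (dproj W e b) 1 = extOp W (dproj W e b) 1 := by rw [extOp_mul, h.idem, mul_one]
  have key : ∀ 𝒮 : Sys W, Module.finrank W.K (𝒮.S (X.prod Y) c) =
      shiftSum d (fun j => Module.finrank W.K (𝒮.S Y j)) c +
      Module.finrank W.K (𝒮.S (X.prod Y) c ⊓ LinearMap.ker (extOp W (dproj W e b)
        (1 : Module.End W.K (W.H Y))) : Submodule W.K (W.H (X.prod Y))) := by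
    intro 𝒮
    rw [finrank_split hP' (T := 𝒮.S (X.prod Y) c) (fun v hv => 𝒮.kop (kop_ext h.kop) hv),
      h.finrank_prod, sum_comp_eq]
  have kA := key (sysA W)
  have kN := key (sysN W)
  change Module.finrank W.K (spanCycles W (X.prod Y) (c : ℕ)) = shiftSum d
    (fun j => Module.finrank W.K (spanCycles W Y (j : ℕ))) c + Module.finrank W.K
    (spanCycles W (X.prod Y) (c : ℕ) ⊓ _ : Submodule W.K (W.H (X.prod Y))) at kA
  change Module.finrank W.K (nul W (X.prod Y) c) = shiftSum d
    (fun j => Module.finrank W.K (nul W Y j)) c + Module.finrank W.K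
    (nul W (X.prod Y) c ⊓ _ : Submodule W.K (W.H (X.prod Y))) at kN
  have e2 : (fun j : ℕ => Module.finrank W.K (spanCycles W Y (j : ℕ))) =
      fun j => ez Y.dim (numRank ops Y) j + Module.finrank W.K (nul W Y j) :=
    funext fun j => rank_A j
  rw [e2, shiftSum_add] at kA
  have hd2 := finrank_nul (W := W) (Z := X.prod Y) c
  rw [← numRank_eq (W := W) hc] at hd2
  have hle : Module.finrank W.K (nul W (X.prod Y) c ⊓ LinearMap.ker
      (extOp W (dproj W e b) (1 : Module.End W.K (W.H Y))) : Submodule W.K (W.H (X.prod Y))) ≤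
      Module.finrank W.K (spanCycles W (X.prod Y) (c : ℕ) ⊓ LinearMap.ker
      (extOp W (dproj W e b) (1 : Module.End W.K (W.H Y))) : Submodule W.K (W.H (X.prod Y))) :=
    Submodule.finrank_mono (inf_le_inf_right _ fun x hx => (mem_nul.1 hx).1)
  omega

end Pool.Agent.L7h85.Sup
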