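import Pool.Agent.TH132.P.Defs

/-!
# Generating polynomials of the ranks of the groups of cycles: definitions
-/

set_option autoImplicit false

open CategoryTheory AlgebraicGeometry Polynomial

universe u v

namespace Pool.Agent.L7h85.Sup

open Pool.Agent.H914 Pool.Agent.H914.VarClass Pool.Agent.H914.VarClass.Obj
  Pool.Agent.H914.WeilCohomology Pool.Agent.W534 Pool.Agent.TH132.P

variable {k : Type u} [Field k] {𝒱 : VarClass k} {ops : CycleOps 𝒱}

/-- The polynomial `∑ c ≤ dim Z, ρ_c(Z) t ^ c`, where `ρ_c(Z)` is the rank of the group of the cycles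
of codimension `c` on `Z` modulo numerical equivalence. -/
noncomputable def rankPoly (ops : CycleOps 𝒱) (Z : 𝒱.Obj) : ℕ[X] :=
  ∑ c ∈ Finset.range (Z.dim + 1), C (numRank ops Z c) * X ^ c

/-- The polynomial `D` is `∑ c ≤ dim Z, δ_c(Z) t ^ c`, where the defect `δ_c(Z)` is the order of the
pole at `s = c` of the zeta function of `Z` over all sufficiently large finite fields, minus
`ρ_c(Z)`. -/
def IsDefectPoly {W : WeilCohomology.{u, v} ops} {p : ℕ} (Φ : FrobSystem W p) (σ : W.K →+* ℂ)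
    (Z : 𝒱.Obj) (D : ℕ[X]) : Prop :=
  D.natDegree ≤ Z.dim ∧ ∀ c ≤ Z.dim, PoleDefect Φ σ Z c (D.coeff c)

/-- The product of the varieties `X 0, …, X n`. -/
noncomputable def iterProd : ∀ n : ℕ, (Fin (n + 1) → 𝒱.Obj) → 𝒱.Obj
  | 0, X => X 0
  | n + 1, X => (X 0).prod (iterProd n (Fin.tail X))

end Pool.Agent.L7h85.Sup
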