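import Pool.Agent.L7h85.Sup.A
import Pool.Agent.L7h85.Sup.Defs

/-!
# The defects of iterated products
-/

set_option autoImplicit false

open CategoryTheory AlgebraicGeometry Polynomial

universe u v

namespace Pool.Agent.L7h85.Sup

open Pool.Agent.H914 Pool.Agent.H914.VarClass Pool.Agent.H914.VarClass.Obj
  Pool.Agent.H914.WeilCohomology Pool.Agent.H281R3.HT Pool.Agent.W534 Pool.Agent.TH132.P
  Pool.Agent.N181.Mod

section Poly

/-- Coefficientwise inequality. -/
def CLe (P Q : ℕ[X]) : Prop := ∀ c, P.coeff c ≤ Q.coeff c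

lemma CLe.refl (P : ℕ[X]) : CLe P P := fun _ => le_rfl

lemma CLe.trans {P Q R : ℕ[X]} (h : CLe P Q) (h' : CLe Q R) : CLe P R :=
  fun c => (h c).trans (h' c)

lemma CLe.mul {P P' Q Q' : ℕ[X]} (h : CLe P P') (h' : CLe Q Q') : CLe (P * Q) (P' * Q') := by
  intro c
  rw [coeff_mul, coeff_mul]
  exact Finset.sum_le_sum fun x _ => Nat.mul_le_mul (h _) (h' _)

lemma CLe.add {P P' Q Q' : ℕ[X]} (h : CLe P P') (h' : CLe Q Q') : CLe (P + Q) (P' + Q') := by
  intro c
  rw [coeff_add, coeff_add]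
  exact Nat.add_le_add (h _) (h' _)

/-- A polynomial with given coefficients. -/
noncomputable def gp (n : ℕ) (a : ℕ → ℕ) : ℕ[X] := ∑ c ∈ Finset.range (n + 1), C (a c) * X ^ c

lemma coeff_gp (n : ℕ) (a : ℕ → ℕ) (c : ℕ) : (gp n a).coeff c = ez n a c := by
  rw [gp, finsetSum_coeff, ez]
  simp only [coeff_C_mul, coeff_X_pow, mul_ite, mul_one, mul_zero]
  rw [Finset.sum_ite_eq]
  simp only [Finset.mem_range, Nat.lt_succ_iff]

lemma natDegree_gp_le (n : ℕ) (a : ℕ → ℕ) : (gp n a).natDegree ≤ n := by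
  refine natDegree_sum_le_of_forall_le _ _ fun c hc => ?_
  refine (natDegree_C_mul_X_pow_le _ _).trans ?_
  have := Finset.mem_range.1 hc
  omega

lemma coeff_gp_mul (m n : ℕ) (a b : ℕ → ℕ) (c : ℕ) :
    (gp m a * gp n b).coeff c = conv m n a b c := by
  rw [coeff_mul, Finset.Nat.sum_antidiagonal_eq_sum_range_succ
    (fun i j => (gp m a).coeff i * (gp n b).coeff j)]
  rw [sum_eq_conv (m := m) (n := n)]
  · refine conv_congr (fun i hi => ?_) (fun j hj => ?_)
    · rw [coeff_gp, ez, if_pos hi]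
    · rw [coeff_gp, ez, if_pos hj]
  · intro i hi
    rw [coeff_gp, ez, if_neg (by omega)]
  · intro j hj
    rw [coeff_gp, ez, if_neg (by omega)]

lemma conv_eq_zero {m n c : ℕ} (h : m + n < c) (a b : ℕ → ℕ) : conv m n a b c = 0 := by
  refine Finset.sum_eq_zero fun x hx => ?_
  rw [Finset.mem_product, Finset.mem_range, Finset.mem_range] at hx
  rw [if_neg (by omega)]

end Poly

variable {k : Type u} [Field k] {𝒱 : VarClass k} {ops : CycleOps 𝒱}
  {W : WeilCohomology.{u, v} ops} {X Y Z Z' : 𝒱.Obj} {p : ℕ}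

lemma rankPoly_eq (Z : 𝒱.Obj) : rankPoly ops Z = gp Z.dim (numRank ops Z) := rfl

/-- The polynomial of the defects. -/
noncomputable def defPoly (Φ : FrobSystem W p) (Z : 𝒱.Obj) : ℕ[X] := gp Z.dim (defect Φ Z)

lemma isDefectPoly (Φ : FrobSystem W p) {σ : W.K →+* ℂ} (hp : 1 < p)
    (hRH : ∀ Z : 𝒱.Obj, RiemannHyp Φ σ Z) (Z : 𝒱.Obj) :
    IsDefectPoly Φ σ Z (defPoly Φ Z) := by
  refine ⟨natDegree_gp_le _ _, fun c hc => ?_⟩
  rw [defPoly, coeff_gp, ez, if_pos hc]
  exact poleDefect_of hp (hRH Z) hc (numRank_add_defect (Φ := Φ) Z hc).symm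

lemma rankPoly_prod (W : WeilCohomology.{u, v} ops) (X Y : 𝒱.Obj) :
    CLe (rankPoly ops X * rankPoly ops Y) (rankPoly ops (X.prod Y)) := by
  intro c
  rw [rankPoly_eq, rankPoly_eq, coeff_gp_mul, rankPoly_eq, coeff_gp, ez]
  by_cases hc : c ≤ (X.prod Y).dim
  · rw [if_pos hc]
    exact rank_ge W X Y hc
  · rw [if_neg hc, conv_eq_zero (by rw [dim_prod] at hc; omega)]

lemma defPoly_prod (Φ : FrobSystem W p) (X Y : 𝒱.Obj) :
    CLe (rankPoly ops X * defPoly Φ Y + defPoly Φ X * rankPoly ops Y)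
      (defPoly Φ (X.prod Y)) := by
  intro c
  rw [coeff_add, rankPoly_eq, rankPoly_eq, defPoly, defPoly, coeff_gp_mul, coeff_gp_mul, defPoly,
    coeff_gp, ez]
  by_cases hc : c ≤ (X.prod Y).dim
  · rw [if_pos hc]
    exact super_le Φ X Y hc
  · rw [if_neg hc, conv_eq_zero (by rw [dim_prod] at hc; omega),
      conv_eq_zero (by rw [dim_prod] at hc; omega)]

theorem rank_iter (W : WeilCohomology.{u, v} ops) : ∀ (n : ℕ) (X : Fin (n + 1) → 𝒱.Obj),
    CLe (∏ l, rankPoly ops (X l)) (rankPoly ops (iterProd n X))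
  | 0, X => by
    rw [Fin.prod_univ_one]
    exact CLe.refl _
  | n + 1, X => by
    rw [Fin.prod_univ_succ]
    exact ((CLe.refl _).mul (rank_iter W n (Fin.tail X))).trans (rankPoly_prod W _ _)

theorem def_iter (Φ : FrobSystem W p) : ∀ (n : ℕ) (X : Fin (n + 1) → 𝒱.Obj),
    CLe (∑ i, ∏ l, if l = i then defPoly Φ (X l) else rankPoly ops (X l))
      (defPoly Φ (iterProd n X))
  | 0, X => by
    rw [Fin.sum_univ_one, Fin.prod_univ_one, if_pos rfl]
    exact CLe.refl _
  | n + 1, X => by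
    rw [Fin.sum_univ_succ]
    have e1 : (∏ l, if l = (0 : Fin (n + 1 + 1)) then defPoly Φ (X l) else rankPoly ops (X l)) =
        defPoly Φ (X 0) * ∏ l : Fin (n + 1), rankPoly ops (Fin.tail X l) := by
      rw [Fin.prod_univ_succ, if_pos rfl]
      refine congrArg (fun z => defPoly Φ (X 0) * z) (Finset.prod_congr rfl fun l _ => ?_)
      rw [if_neg (Fin.succ_ne_zero l)]
      rfl
    have e2 : ∀ i : Fin (n + 1), (∏ l, if l = i.succ then defPoly Φ (X l) else
        rankPoly ops (X l)) = rankPoly ops (X 0) * ∏ l : Fin (n + 1), if l = i then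
          defPoly Φ (Fin.tail X l) else rankPoly ops (Fin.tail X l) := by
      intro i
      rw [Fin.prod_univ_succ, if_neg (Fin.succ_ne_zero i).symm]
      refine congrArg (fun z => rankPoly ops (X 0) * z) (Finset.prod_congr rfl fun l _ => ?_)
      by_cases h : l = i
      · rw [if_pos h, if_pos (by rw [h])]
        rfl
      · rw [if_neg h, if_neg (fun h' => h (Fin.succ_injective _ h'))]
        rfl
    rw [e1, Finset.sum_congr rfl fun i _ => e2 i, ← Finset.mul_sum, add_comm]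
    refine CLe.trans ?_ (defPoly_prod Φ (X 0) (iterProd n (Fin.tail X)))
    exact ((CLe.refl _).mul (def_iter Φ n (Fin.tail X))).add
      ((CLe.refl _).mul (rank_iter W n (Fin.tail X)))

end Pool.Agent.L7h85.Sup
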