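import Pool.Agent.L7h85.Sup.B

/-!
# MP_557161_ag: superadditivity of the defects in the formula of Tate, for products of arbitrary
varieties

For a smooth projective variety `Z` over an algebraic closure of a finite field, `ρ_c(Z)` is the rank
of the group of cycles of codimension `c` modulo numerical equivalence, and the defect `δ_c(Z)` is
the order of the pole at `s = c` of the zeta function of `Z` over all sufficiently large finite
fields, minus `ρ_c(Z)`. It is at least zero, and the formula of Tate says that `δ_c(Z) = 0`. Put
`R(Z) = ∑ ρ_c(Z) t ^ c` and `D(Z) = ∑ δ_c(Z) t ^ c`.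

**Theorem.** For **all** varieties `X 0, …, X n`, coefficient by coefficient,

* `R(X 0 × ⋯ × X n) ≥ ∏ R(X l)`;
* `D(X 0 × ⋯ × X n) ≥ ∑ i, D(X i) ∏ l ≠ i, R(X l)`.

For two varieties the second inequality says that

  `δ_c(X × Y) ≥ ∑ (ρ_i(X) δ_j(Y) + δ_i(X) ρ_j(Y))`, the sum over `i + j = c`,

and for a power that `D(X ^ n) ≥ n D(X) R(X) ^ (n - 1)`. In particular, if the formula of Tate holds
for `X × Y` in codimension `c`, then it holds for `X` in codimension `i` and for `Y` in codimension
`j` for all `i + j = c` such that there are cycles of codimension `j` on `Y`, and of codimension `i`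
on `X`, that are not numerically trivial; and the theorem bounds how far the formula fails on
products.

Nothing is assumed on the varieties: neither the semisimplicity of Frobenius, nor the coincidence of
homological and numerical equivalence, nor any standard conjecture. The Riemann hypothesis (the theorem
of Deligne) is a hypothesis.
-/

set_option autoImplicit false

open CategoryTheory AlgebraicGeometry Polynomial

universe u v

namespace Pool.Agent.L7h85.Sup.Res

open Pool.Agent.H914 Pool.Agent.W534 Pool.Agent.L7h85.Sup

/-- **The defects in the formula of Tate are superadditive on products.** -/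
theorem result {k : Type u} [Field k] {𝒱 : VarClass k} {ops : CycleOps 𝒱}
    (W : WeilCohomology.{u, v} ops) (σ : W.K →+* ℂ) (p : ℕ) (hp : p.Prime)
    (Φ : FrobSystem W p) (hRH : ∀ Z : 𝒱.Obj, RiemannHyp Φ σ Z) :
    ∃ D : 𝒱.Obj → ℕ[X], (∀ Z, IsDefectPoly Φ σ Z (D Z)) ∧
      ∀ (n : ℕ) (X : Fin (n + 1) → 𝒱.Obj) (c : ℕ),
        (∏ l, rankPoly ops (X l)).coeff c ≤ (rankPoly ops (iterProd n X)).coeff c ∧
        (∑ i, ∏ l, if l = i then D (X l) else rankPoly ops (X l)).coeff c ≤
          (D (iterProd n X)).coeff c :=
  ⟨defPoly Φ, isDefectPoly Φ hp.one_lt hRH,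
    fun n X c => ⟨rank_iter W n X c, def_iter Φ n X c⟩⟩

end Pool.Agent.L7h85.Sup.Res
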